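import Pool.Agent.Helper78.LD10.Defs
import Pool.Agent.Helper80.LD8.NUM8

/-!
# LD10 (MP_9056e9), block NUM10: the weights are not too small
-/

set_option autoImplicit false

namespace Pool.Agent.Helper76.LD10

open Pool.Agent.Helper78.LD8 (Pm)
open Pool.Agent.Helper80.LD8 (num_K num_Z num_ZK)

variable {F : Pm} {Q K : ℕ}

private lemma four_sq_le {n : ℕ} (h : 11 ≤ n) : 4 * n * (n + 1) ≤ 2 ^ n := by
  induction n, h using Nat.le_induction with
  | base => norm_num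
  | succ n hn ih =>
    rw [pow_succ]
    nlinarith

/-- the weights are not too small -/
theorem num_om10 (hK : F.Big K) (hQX : Q ≤ F.X) : Q * (2 * (F.d + 1) * (K + 1)) ^ (F.d + 1) ≤ 2 ^ K := by
  have h0 := num_K hK
  obtain ⟨h1, hX, hd, _, _⟩ := num_Z F
  obtain ⟨hZK, h2⟩ := num_ZK hK
  have hZ0 : 0 < 4 * F.Z := by omega
  set y := K / (4 * F.Z) with hy
  have hy1 : y * (4 * F.Z) ≤ K := Nat.div_mul_le_self K _
  have hy2 : K < (y + 1) * (4 * F.Z) := by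
    have h := Nat.div_add_mod K (4 * F.Z)
    have h' := Nat.mod_lt K hZ0
    rw [← hy] at h
    calc K = 4 * F.Z * y + K % (4 * F.Z) := h.symm
      _ < 4 * F.Z * y + 4 * F.Z := Nat.add_lt_add_left h' _
      _ = (y + 1) * (4 * F.Z) := by ring
  have hZ3 : 4 * F.Z ≤ F.Z ^ 3 := by
    calc 4 * F.Z ≤ F.Z ^ 2 * F.Z := Nat.mul_le_mul_right _ (by nlinarith)
      _ = F.Z ^ 3 := by ring
  have hyZ : F.Z ≤ y := by
    rw [hy, Nat.le_div_iff_mul_le hZ0]
    calc F.Z * (4 * F.Z) ≤ F.Z * F.Z ^ 3 := Nat.mul_le_mul_left _ hZ3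
      _ = F.Z ^ 4 := by ring
      _ ≤ K := h2
  have hK2 : K ≤ 2 ^ y := by
    have h3 : (y + 1) * (4 * F.Z) ≤ 4 * y * (y + 1) := by
      calc (y + 1) * (4 * F.Z) ≤ (y + 1) * (4 * y) := Nat.mul_le_mul_left _ (by omega)
        _ = 4 * y * (y + 1) := by ring
    exact hy2.le.trans (h3.trans (four_sq_le (by omega)))
  have h5 : 2 * (F.d + 1) * (K + 1) ≤ K ^ 2 := by
    have h6 : 4 * F.Z ≤ K := le_trans hZ3 (le_trans (Nat.pow_le_pow_right (by omega) (by norm_num)) h2)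
    calc 2 * (F.d + 1) * (K + 1) ≤ 2 * F.Z * (2 * K) := Nat.mul_le_mul (by omega) (by omega)
      _ = 4 * F.Z * K := by ring
      _ ≤ K * K := Nat.mul_le_mul_right _ h6
      _ = K ^ 2 := by ring
  have hQK : Q ≤ K := by omega
  calc Q * (2 * (F.d + 1) * (K + 1)) ^ (F.d + 1) ≤ K * (K ^ 2) ^ (F.d + 1) :=
        Nat.mul_le_mul hQK (Nat.pow_le_pow_left h5 _)
    _ = K ^ (2 * F.d + 3) := by
        rw [← pow_mul, ← pow_succ']
        congr 1
    _ ≤ (2 ^ y) ^ (2 * F.d + 3) := Nat.pow_le_pow_left hK2 _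
    _ = 2 ^ (y * (2 * F.d + 3)) := by rw [← pow_mul]
    _ ≤ 2 ^ K := Nat.pow_le_pow_right (by norm_num)
        (le_trans (Nat.mul_le_mul_left y (by omega)) hy1)

end Pool.Agent.Helper76.LD10
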